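import Pool.Agent.VLF.Stmts

set_option autoImplicit false

/-!
# VLF, row PER: differences of a periodic sequence
-/

namespace Pool.Agent.VLF.H64

open Polynomial Pool.Agent.VLF

/-- The difference operator. -/
def DD : Module.End ℤ (ℕ → ℤ) where
  toFun := dlt
  map_add' f g := by
    funext x
    simp only [dlt, Pi.add_apply]
    ring
  map_smul' c f := by
    funext x
    simp only [dlt, Pi.smul_apply, smul_eq_mul, RingHom.id_apply]
    ring

theorem DD_pow (n : ℕ) (f : ℕ → ℤ) : (DD ^ n) f = dlt^[n] f := by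
  rw [Module.End.pow_apply]
  rfl

theorem shift_pow (n : ℕ) (f : ℕ → ℤ) (x : ℕ) : ((1 + DD) ^ n) f x = f (x + n) := by
  induction n generalizing f x with
  | zero => rfl
  | succ n ih =>
    rw [pow_succ, Module.End.mul_apply, ih]
    show f (x + n) + dlt f (x + n) = f (x + (n + 1))
    unfold dlt
    rw [← add_assoc]
    ring

theorem per (pow : PowStmt) : PerStmt := by
  intro p k a J hp hk f hf hJ x
  obtain ⟨M, hM⟩ : ∃ M, M = p ^ (k - 1) * (1 + (p - 1) * a) := ⟨_, rfl⟩
  rw [← hM] at hJ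
  obtain ⟨Q, hQ⟩ : ∃ Q : ℤ[X], Q = (1 + X) ^ (p ^ k) - 1 := ⟨_, rfl⟩
  have h1 : (1 + Ideal.Quotient.mk (Ideal.span {Q}) X) ^ (p ^ k) = 1 := by
    have h : Ideal.Quotient.mk (Ideal.span {Q}) Q = 0 :=
      Ideal.Quotient.eq_zero_iff_mem.mpr (Ideal.mem_span_singleton_self Q)
    have h' : Ideal.Quotient.mk (Ideal.span {Q}) Q =
        (1 + Ideal.Quotient.mk (Ideal.span {Q}) X) ^ (p ^ k) - 1 := by
      rw [hQ]
      simp only [map_sub, map_pow, map_add, map_one]
    rw [h'] at h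
    exact sub_eq_zero.mp h
  obtain ⟨r, hr⟩ := pow _ p k hp hk _ h1 a
  obtain ⟨B, rfl⟩ := Ideal.Quotient.mk_surjective r
  have h2 : (X : ℤ[X]) ^ M - (p : ℤ[X]) ^ a * B ∈ Ideal.span {Q} := by
    refine Ideal.Quotient.eq_zero_iff_mem.mp ?_
    rw [map_sub, map_mul, map_pow, map_pow, map_natCast, hM, hr, sub_self]
  obtain ⟨A, hA⟩ := Ideal.mem_span_singleton'.mp h2
  have h3 : (DD ^ M) f = ((p : ℤ) ^ a) • (aeval DD B) f := by
    have hX : (X : ℤ[X]) ^ M = A * Q + (p : ℤ[X]) ^ a * B := by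
      rw [hA]
      ring
    have h4 := congrArg (fun P : ℤ[X] => (aeval DD P) f) hX
    simp only [map_add, map_mul, map_pow, aeval_X, map_natCast, LinearMap.add_apply,
      Module.End.mul_apply] at h4
    have hQf : (aeval DD Q) f = 0 := by
      rw [hQ]
      simp only [map_sub, map_pow, map_add, map_one, aeval_X, LinearMap.sub_apply,
        Module.End.one_apply]
      funext y
      rw [Pi.sub_apply, shift_pow, hf, sub_self]
      rfl
    rw [hQf, map_zero, zero_add] at h4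
    rw [h4]
    have h5 : ((p : Module.End ℤ (ℕ → ℤ)) ^ a) = (((p : ℤ) ^ a : ℤ) : Module.End ℤ (ℕ → ℤ)) := by
      push_cast
      rfl
    rw [h5]
    exact Module.End.intCast_apply _ _
  have h6 : dlt^[J] f = ((p : ℤ) ^ a) • (DD ^ (J - M)) ((aeval DD B) f) := by
    rw [← DD_pow, ← map_smul, ← h3, ← Module.End.mul_apply, ← pow_add, Nat.sub_add_cancel hJ]
  rw [h6]
  exact Dvd.intro _ rfl

end Pool.Agent.VLF.H64
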